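import Pool.Agent.helper22.RG9.Spec

/-!
# Project rg9 (MP_a2a22c_al), row NRM: the group normalises the Lie algebra
-/

set_option autoImplicit false

namespace Pool.Agent.RG9

open Matrix Pool.Agent.H48SL Pool.Agent.UG

theorem NRM_third {m : ℕ} (hm : 3 ≤ m) (i j : Fin m) : ∃ p : Fin m, i ≠ p ∧ p ≠ j := by
  by_contra h
  push Not at h
  have h1 : (Finset.univ : Finset (Fin m)) ⊆ {i, j} := by
    intro p _
    by_cases hp : i = p
    · simp [hp]
    · simp [h p hp]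
  have h2 := (Finset.card_le_card h1).trans Finset.card_le_two
  rw [Finset.card_univ, Fintype.card_fin] at h2
  omega

theorem NRM_br {n : ℕ} (g : SLZ n) (A B : MQ n) : qg g * (A * B - B * A) * qg g⁻¹ =
    (qg g * A * qg g⁻¹) * (qg g * B * qg g⁻¹) - (qg g * B * qg g⁻¹) * (qg g * A * qg g⁻¹) := by
  have h : qg g⁻¹ * qg g = 1 := qg_inv_mul g
  have e : ∀ A B : MQ n, (qg g * A * qg g⁻¹) * (qg g * B * qg g⁻¹) = qg g * (A * B) * qg g⁻¹ := by
    intro A B
    calc (qg g * A * qg g⁻¹) * (qg g * B * qg g⁻¹) = qg g * A * (qg g⁻¹ * qg g) * B * qg g⁻¹ := by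
          simp only [mul_assoc]
      _ = qg g * (A * B) * qg g⁻¹ := by rw [h, mul_one, mul_assoc (qg g) A B]
  rw [e, e, mul_sub, sub_mul]

theorem NRM_span {n : ℕ} (g : SLZ n) (S : Set (MQ n)) (T : Submodule ℚ (MQ n))
    (h : ∀ Z ∈ S, qg g * Z * qg g⁻¹ ∈ T) : ∀ Z ∈ Submodule.span ℚ S, qg g * Z * qg g⁻¹ ∈ T := by
  intro Z hZ
  induction hZ using Submodule.span_induction with
  | mem Z hZ => exact h Z hZ
  | zero => simp
  | add Z W _ _ h1 h2 =>
    rw [mul_add, add_mul]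
    exact T.add_mem h1 h2
  | smul c Z _ h1 =>
    rw [mul_smul_comm, smul_mul_assoc]
    exact T.smul_mem c h1

theorem NRM (hBR2 : BR2_stmt) (hCJG : CJG_stmt) (hLIE : LIE_stmt) : NRM_stmt := by
  intro n m hm X hX
  set a : Fin m → Fin m → Submodule ℚ (MQ n) := fun i j => LS (X i j) with ha
  have hG : LGr a := hBR2 n m hm X hX
  have hL := (hLIE n m hm a hG).2
  have hC : ∀ i j k l, i ≠ j → k ≠ l → ¬ (k = j ∧ l = i) → ∀ x ∈ X k l, ∀ Z ∈ a i j,
      qg x * Z * qg x⁻¹ ∈ SS a := hCJG n m hm X hX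
  -- a root space
  have h1 : ∀ k l, k ≠ l → ∀ x ∈ X k l, ∀ i j, i ≠ j → ∀ Z ∈ a i j, qg x * Z * qg x⁻¹ ∈ SS a := by
    intro k l hkl x hx i j hij Z hZ
    by_cases hc : k = j ∧ l = i
    · obtain ⟨p, hip, hpj⟩ := NRM_third hm i j
      rw [hG.gen i p j hip hpj hij] at hZ
      refine NRM_span x _ (SS a) ?_ Z hZ
      rintro _ ⟨U, hU, V, hV, rfl⟩
      rw [NRM_br]
      refine hL _ (hC i p k l hip hkl (fun h => hpj (h.1.symm.trans hc.1)) x hx U hU) _
        (hC p j k l hpj hkl (fun h => hip (hc.2.symm.trans h.2)) x hx V hV)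
    · exact hC i j k l hij hkl hc x hx Z hZ
  have h2 : ∀ k l, k ≠ l → ∀ x ∈ X k l, ∀ Z ∈ SS a, qg x * Z * qg x⁻¹ ∈ SS a := by
    intro k l hkl x hx
    refine NRM_span x _ (SS a) ?_
    rintro Z (⟨i, j, hij, hZ⟩ | ⟨i, j, hij, A, hA, B, hB, rfl⟩)
    · exact h1 k l hkl x hx i j hij Z hZ
    · rw [NRM_br]
      exact hL _ (h1 k l hkl x hx i j hij A hA) _ (h1 k l hkl x hx j i hij.symm B hB)
  have h3 : ∀ g ∈ gd X, (∀ Z ∈ SS a, qg g * Z * qg g⁻¹ ∈ SS a) ∧ ∀ Z ∈ SS a, qg g⁻¹ * Z * qg g⁻¹⁻¹ ∈ SS a := by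
    intro g hg
    induction hg using Subgroup.closure_induction with
    | mem g hg =>
      obtain ⟨k, l, hkl, hx⟩ := hg
      exact ⟨h2 k l hkl g hx, h2 k l hkl g⁻¹ (inv_mem hx)⟩
    | one =>
      rw [inv_one, inv_one, qg_one]
      simp
    | mul g h _ _ ihg ihh =>
      constructor
      · intro Z hZ
        have e := ihg.1 _ (ihh.1 Z hZ)
        rw [_root_.mul_inv_rev, qg_mul, qg_mul]
        simp only [mul_assoc] at e ⊢
        exact e
      · intro Z hZ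
        have e := ihh.2 _ (ihg.2 Z hZ)
        rw [_root_.mul_inv_rev, _root_.mul_inv_rev, qg_mul, qg_mul]
        simp only [mul_assoc] at e ⊢
        exact e
    | inv g _ ih =>
      refine ⟨ih.2, ?_⟩
      rw [inv_inv]
      exact ih.1
  exact fun g hg => (h3 g hg).1

end Pool.Agent.RG9
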